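import Pool.Agent.LibKLD42.K8

set_option autoImplicit false

namespace Pool.Agent.Results.MP_a181d3_al.DescentCriterion

open Pool.Agent.LibKLD42

/-- Let `b` be the standard basis of the Hecke algebra `H` of the symmetric group on `n` points, `C` its
Kazhdan-Lusztig basis and `D` the dual Kazhdan-Lusztig basis. Let `F` be a family of sets of (indices of)
simple reflections and let `X` be an element of `H` a nonzero multiple of which lies in the two-sided
ideal generated by the `g` such that for some `K` in `F`, `g * C s = (v + v⁻¹) g` for all `s` in `K`, or
`C s * g = (v + v⁻¹) g` for all `s` in `K`.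

(1) If `u = ∑ c w • D w` with `u * X = 0`, `t = sim n j`, and each `K` in `F` meets (see `Meets`) the set
`R` of all left descents other than `t` of the `w` with `c w ≠ 0` and `t w < w`, then `u⁺ * X = 0`, `u⁺` the
part of `u` on the `w` with `t w < w`.

(2) `D w * X = 0` implies `D w' * X = 0` for all `w'` in the smallest set `Z` which contains `w` and with the
following property: `w'` is in `Z` if `T` is a set of left descents `t` of `w'`, for each of which `w'`
arises from some `u` in `Z` by a left star operation with the new left descent `t`, and each `K` in `F`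
meets the set of the left descents of `w'` which are not in `T` (see `Covered`, `restDesc`, `Reach`).

(3) If `x` and `y` contain the pattern 321, then `D w * C x = D w * C y` implies `D w' * C x = D w' * C y`
for all `w'` in the smallest set as in (2) with the condition that at most one left descent of `w'` is
not in `T` (see `Reach1`); for example if `w'` is obtained from `w` by left star operations `u → u'` with
at most two left descents of `u'`. -/
theorem result (n : ℕ) (H : Type) [Ring H] [Algebra A H]
    (b : Module.Basis (Equiv.Perm (Fin n)) A H) (bar : H →+* H) (C D : Equiv.Perm (Fin n) → H)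
    (hb : IsHecke b) (hbar : IsBar b bar) (hC : IsKL b bar C) (hD : IsDual b C D) :
    (∀ (F : Set (Set ℕ)) (X : H) (a : A), a ≠ 0 → a • X ∈ eigIdeal C F →
      (∀ j : ℕ, j + 1 < n → ∀ c : Equiv.Perm (Fin n) → A,
        (∀ K ∈ F, Meets n K (otherDesc n c j)) → (∑ w, c w • D w) * X = 0 →
          (∑ w, (if len (sim n j * w) < len w then c w else 0) • D w) * X = 0) ∧
      (∀ w w' : Equiv.Perm (Fin n), Reach F w w' → D w * X = 0 → D w' * X = 0)) ∧
    (∀ x y w w' : Equiv.Perm (Fin n), ¬ FCp x → ¬ FCp y → Reach1 w w' →
      D w * C x = D w * C y → D w' * C x = D w' * C y) :=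
  ⟨fun F X a ha hX => ⟨fun j hj c hM h => plus_gen hb hbar hC hD F j hj c hM X a ha hX h,
    fun w w' hs h => reach_main hb hbar hC hD F w w' hs X a ha hX h⟩,
    fun x y w w' hx hy hs h => reach1_main hb hbar hC hD x y w w' hx hy hs h⟩

end Pool.Agent.Results.MP_a181d3_al.DescentCriterion
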