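import Pool.Agent.LibKLD42.G3

set_option autoImplicit false

namespace Pool.Agent.Results.MP_a181d3_al.FullyCommutativeCells

open Pool.Agent.LibKLD42

/-- Let `b` be the standard basis of the Hecke algebra of the symmetric group on `n` points, `C` its
Kazhdan-Lusztig basis and `D` the dual Kazhdan-Lusztig basis. Let `w` be fully commutative
(321-avoiding) and let `w'` be in the left cell of `w`. Then for all `x` and `y`,
`D w * C x = D w * C y` implies `D w' * C x = D w' * C y`. -/
theorem result (n : ℕ) (H : Type) [Ring H] [Algebra A H]
    (b : Module.Basis (Equiv.Perm (Fin n)) A H) (bar : H →+* H) (C D : Equiv.Perm (Fin n) → H)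
    (hb : IsHecke b) (hbar : IsBar b bar) (hC : IsKL b bar C) (hD : IsDual b C D)
    (x y w w' : Equiv.Perm (Fin n)) (hw : FCp w) (hs : LeftCell C w w')
    (h : D w * C x = D w * C y) : D w' * C x = D w' * C y :=
  cell_main hb hbar hC hD w w' x y hw hs h

end Pool.Agent.Results.MP_a181d3_al.FullyCommutativeCells
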