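import Pool.Agent.LibKLD42.G4

set_option autoImplicit false

namespace Pool.Agent.Results.MP_a181d3_al.PlusPart

open Pool.Agent.LibKLD42

/-- Let `b` be the standard basis of the Hecke algebra of the symmetric group on `n` points, `C` its
Kazhdan-Lusztig basis and `D` the dual Kazhdan-Lusztig basis. Let `u = ∑ c a • D a` be an integral
combination of the `D a` with `a` fully commutative, let `s = sim n i` be a simple reflection and let
`u⁺` be the part of `u` on the `a` with `s a < a`. Then for all `x` and `y`, `u * C x = u * C y`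
implies `u⁺ * C x = u⁺ * C y`. -/
theorem result (n : ℕ) (H : Type) [Ring H] [Algebra A H]
    (b : Module.Basis (Equiv.Perm (Fin n)) A H) (bar : H →+* H) (C D : Equiv.Perm (Fin n) → H)
    (hb : IsHecke b) (hbar : IsBar b bar) (hC : IsKL b bar C) (hD : IsDual b C D)
    (x y : Equiv.Perm (Fin n)) (i : ℕ) (hi : i + 1 < n)
    (c : Equiv.Perm (Fin n) → ℤ) (hc : ∀ a, c a ≠ 0 → FCp a)
    (h : (∑ a, c a • D a) * C x = (∑ a, c a • D a) * C y) :
    (∑ a, (if len (sim n i * a) < len a then c a else 0) • D a) * C x =
      (∑ a, (if len (sim n i * a) < len a then c a else 0) • D a) * C y :=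
  plus_main hb hbar hC hD x y i hi c hc h

end Pool.Agent.Results.MP_a181d3_al.PlusPart
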