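import Pool.Agent.LibKLD42.M4
import Pool.Agent.LibKLD42.M6

set_option autoImplicit false

namespace Pool.Agent.Results.MP_a181d3_al.TwoColumnCells

open Pool.Agent.LibKLD42

/-- Let `b` be the standard basis of the Hecke algebra of the symmetric group on `n` points, `C` its
Kazhdan-Lusztig basis, `D` the dual Kazhdan-Lusztig basis and `w₀ = Fin.revPerm` the longest element.
Let `w` and `w'` be in the same left cell, let `w w₀` be 321-avoiding, and let `C (w w₀)` and `C (w' w₀)`
be monomial (the product of the `C s` along a reduced word). Then for every `X` in the Hecke algebra,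
`D w * X = 0` implies `D w' * X = 0`. -/
theorem result (n : ℕ) (H : Type) [Ring H] [Algebra A H]
    (b : Module.Basis (Equiv.Perm (Fin n)) A H) (bar : H →+* H) (C D : Equiv.Perm (Fin n) → H)
    (hb : IsHecke b) (hbar : IsBar b bar) (hC : IsKL b bar C) (hD : IsDual b C D)
    (w w' : Equiv.Perm (Fin n)) (hw : FCp (w * Fin.revPerm)) (hs : LeftCell C w w')
    (hm : IsMonomial C (w * Fin.revPerm)) (hm' : IsMonomial C (w' * Fin.revPerm)) (X : H)
    (h : D w * X = 0) : D w' * X = 0 :=
  dual_cell hb hbar hC hD w w' hw hs hm hm' X h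

end Pool.Agent.Results.MP_a181d3_al.TwoColumnCells
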